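import Pool.Agent.K7.H87.EX.Stm2

set_option autoImplicit false

namespace Pool.Agent.K7.H43.EXSOLV

open Pool.Agent.K7.H87.EX
open scoped commutatorElement

theorem cj_mul' {K : Type} [Group K] (N : Subgroup K) (hN : N.Normal) (g : K) (a b : N) :
    cj N hN g (a * b) = cj N hN g a * cj N hN g b := by
  apply Subtype.ext
  simp only [cj, Subgroup.coe_mul]
  group

theorem mul_cj {K : Type} [Group K] (N : Subgroup K) (hN : N.Normal) (g h : K) (a : N) :
    cj N hN (g * h) a = cj N hN g (cj N hN h a) := by
  apply Subtype.ext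
  simp only [cj]
  group

theorem one_cj {K : Type} [Group K] (N : Subgroup K) (hN : N.Normal) (a : N) :
    cj N hN 1 a = a := by
  apply Subtype.ext
  simp [cj]

theorem cj_one {K : Type} [Group K] (N : Subgroup K) (hN : N.Normal) (g : K) :
    cj N hN g 1 = 1 := by
  apply Subtype.ext
  simp [cj]

theorem t0 (hLev : StLev) (hDrop : StDrop) (hCom : StCom) : StSolv := by
  intro K _ N hN _ hl hr hcj hfin hcen
  obtain ⟨L0, Lmul, Linv, Llt, M, LM⟩ := hLev N hl hr hfin
  have hdrop := hDrop K N hN hl hr hcj hfin
  have hcom := hCom N hl hr hfin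
  have L1 : lev (1 : N) = 0 := (L0 1).2 rfl
  let S : ℕ → Subgroup K := fun j =>
    { carrier := {g | ∀ a : N, lev (a⁻¹ * cj N hN g a) ≤ j}
      one_mem' := by
        intro a
        rw [one_cj, inv_mul_cancel, L1]
        exact Nat.zero_le _
      mul_mem' := by
        intro g h hg hh a
        rw [mul_cj]
        have e : a⁻¹ * cj N hN g (cj N hN h a) =
            (a⁻¹ * cj N hN h a) * ((cj N hN h a)⁻¹ * cj N hN g (cj N hN h a)) := by group
        rw [e]
        exact (Lmul _ _).trans (max_le (hh a) (hg _))
      inv_mem' := by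
        intro g hg a
        have h1 := hg (cj N hN g⁻¹ a)
        rw [← mul_cj, mul_inv_cancel, one_cj, ← Linv] at h1
        have e : ((cj N hN g⁻¹ a)⁻¹ * a)⁻¹ = a⁻¹ * cj N hN g⁻¹ a := by group
        rw [e] at h1
        exact h1 }
  have hS : ∀ j g, g ∈ S j ↔ ∀ a : N, lev (a⁻¹ * cj N hN g a) ≤ j := fun j g => Iff.rfl
  -- elements of the commutator subgroup lower the level
  have low : ∀ g ∈ commutator K, ∀ a : N, ∀ j : ℕ, lev a ≤ j →
      lev (a⁻¹ * cj N hN g a) ≤ j - 1 := by
    intro g hg a j hj
    by_cases ha : a = 1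
    · subst ha
      rw [cj_one, inv_one, mul_one, L1]
      exact Nat.zero_le _
    · have := hdrop g hg a ha
      omega
  have com : ∀ u v : N, ∀ j : ℕ, lev u ≤ j → lev v ≤ j → lev (u⁻¹ * v⁻¹ * u * v) ≤ j - 1 := by
    intro u v j hu hv
    rcases le_total (lev v) (lev u) with h | h
    · by_cases h1 : u = 1
      · subst h1
        have e : (1 : N)⁻¹ * v⁻¹ * 1 * v = 1 := by group
        rw [e, L1]
        exact Nat.zero_le _
      · have := hcom u v h1 h
        omega
    · by_cases h1 : v = 1
      · subst h1
        have e : u⁻¹ * (1 : N)⁻¹ * u * 1 = 1 := by group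
        rw [e, L1]
        exact Nat.zero_le _
      · have := hcom v u h1 h
        rw [← Linv] at this
        have e : (v⁻¹ * u⁻¹ * v * u)⁻¹ = u⁻¹ * v⁻¹ * u * v := by group
        rw [e] at this
        omega
  have claim : ∀ i : ℕ, derivedSeries K (i + 1) ≤ S (M - (i + 1)) := by
    intro i
    induction i with
    | zero =>
      intro g hg
      rw [hS]
      intro a
      have hg' : g ∈ commutator K := by
        rw [← derivedSeries_one]
        exact hg
      exact low g hg' a M (LM a)
    | succ i ih =>
      have hD : derivedSeries K (i + 1) ≤ commutator K := by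
        rw [← derivedSeries_one]
        exact derivedSeries_antitone K (by omega)
      rw [derivedSeries_succ, Subgroup.commutator_le]
      intro g hg h hh
      rw [hS]
      intro a
      set j := M - (i + 1) with hj
      have ej : M - (i + 1 + 1) = j - 1 := by omega
      rw [ej]
      set b : N := cj N hN (h * g)⁻¹ a with hb
      have ea : a = cj N hN (h * g) b := by
        rw [hb, ← mul_cj, mul_inv_cancel, one_cj]
      have ec : cj N hN ⁅g, h⁆ a = cj N hN (g * h) b := by
        rw [ea, ← mul_cj]
        congr 1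
        rw [commutatorElement_def]
        group
      set u : N := b⁻¹ * cj N hN g b with hu
      set v : N := b⁻¹ * cj N hN h b with hv
      have hu' : lev u ≤ j := (hS j g).1 (ih hg) b
      have hv' : lev v ≤ j := (hS j h).1 (ih hh) b
      have e1 : cj N hN g b = b * u := by rw [hu]; group
      have e2 : cj N hN h b = b * v := by rw [hv]; group
      have e3 : cj N hN (h * g) b = b * v * cj N hN h u := by
        rw [mul_cj, e1, cj_mul', e2]
      have e4 : cj N hN (g * h) b = b * u * cj N hN g v := by
        rw [mul_cj, e2, cj_mul', e1]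
      have e5 : a⁻¹ * cj N hN ⁅g, h⁆ a =
          (u⁻¹ * cj N hN h u)⁻¹ * ((u⁻¹ * v⁻¹ * u * v) * (v⁻¹ * cj N hN g v)) := by
        rw [ec]
        rw [ea, e3, e4]
        group
      rw [e5]
      refine (Lmul _ _).trans (max_le ?_ ((Lmul _ _).trans (max_le ?_ ?_)))
      · rw [Linv]
        exact low h (hD hh) u j hu'
      · exact com u v j hu' hv'
      · exact low g (hD hg) v j hv'
  have hc : derivedSeries K (M + 1) ≤ Subgroup.center K := by
    intro g hg
    apply hcen
    intro a ha
    have h1 := (hS _ g).1 (claim M hg) ⟨a, ha⟩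
    have h2 : lev ((⟨a, ha⟩ : N)⁻¹ * cj N hN g ⟨a, ha⟩) = 0 := by
      have : M - (M + 1) = 0 := by omega
      rw [this] at h1
      omega
    have h3 := (L0 _).1 h2
    have h4 : cj N hN g ⟨a, ha⟩ = ⟨a, ha⟩ := by
      rw [inv_mul_eq_one] at h3
      exact h3.symm
    have h5 := congrArg Subtype.val h4
    simp only [cj] at h5
    have h6 : g * a = a * g := by
      have := congrArg (· * g) h5
      simpa using this
    exact h6.symm
  refine ⟨⟨M + 2, ?_⟩⟩
  rw [derivedSeries_succ, eq_bot_iff, Subgroup.commutator_le]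
  intro g hg h hh
  rw [Subgroup.mem_bot, commutatorElement_eq_one_iff_mul_comm]
  exact (Subgroup.mem_center_iff.1 (hc hh) g)

/-- the signature of the sketch -/
theorem t (hLev : StLev) (hDrop : StDrop) (hCom : StCom) (_hInv : StInv) : StSolv :=
  t0 hLev hDrop hCom

end Pool.Agent.K7.H43.EXSOLV
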